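import Pool.Agent.Lib_MP_f63283_ins.Core

set_option autoImplicit false

namespace Pool.Agent.Results.MP_f63283_co.ColumnNumberSets

/-- The finite set `S` of vectors of `ℤ ^ m` spans `ℝ ^ m`, and `|det (v 1, ..., v m)| ≤ Δ` for all `v 1, ..., v m` in
`S`: the vectors of `S` are the (pairwise distinct) columns of a `Δ`-modular matrix with `m` rows. -/
def DeltaModular (Δ m : ℕ) (S : Finset (Fin m → ℤ)) : Prop :=
  Submodule.span ℝ {x : Fin m → ℝ | ∃ v ∈ S, ∀ i, x i = (v i : ℝ)} = ⊤ ∧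
    ∀ v : Fin m → (Fin m → ℤ), (∀ i, v i ∈ S) → |(Matrix.of v).det| ≤ (Δ : ℤ)

/-- For all positive integers `m`, `Δ`:
(1) the largest size `h(Δ, m)` of a set `S` as in `DeltaModular` exists and is at most `27 ^ 4 * 5 * m ^ 2 * Δ`;
(2) if all vectors of such a set `S` are in a subgroup `Λ` of `ℤ ^ m`, then `Λ` has finite index and
`|S| * [ℤ ^ m : Λ] ≤ 27 ^ 4 * 5 * m ^ 2 * Δ`;
(3) every such set `S` contains vectors `b 1, ..., b m` with determinant not `0` (the absolute value being the largest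
one for vectors of `S`), such that every class of `ℤ ^ m` modulo the lattice spanned by them contains at most
`27 ^ 4 * 5 * m ^ 2` vectors of `S`. -/
theorem result (m Δ : ℕ) (hm : 1 ≤ m) (hΔ : 1 ≤ Δ) :
    (∃ h : ℕ, IsGreatest {n : ℕ | ∃ S : Finset (Fin m → ℤ), DeltaModular Δ m S ∧ S.card = n} h ∧
      h ≤ 27 ^ 4 * 5 * m ^ 2 * Δ) ∧
    (∀ S : Finset (Fin m → ℤ), DeltaModular Δ m S →
      (∀ Λ : AddSubgroup (Fin m → ℤ), (∀ v ∈ S, v ∈ Λ) →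
        Λ.index ≠ 0 ∧ S.card * Λ.index ≤ 27 ^ 4 * 5 * m ^ 2 * Δ) ∧
      (∃ b : Fin m → (Fin m → ℤ), (∀ i, b i ∈ S) ∧ (Matrix.of b).det ≠ 0 ∧
        (∀ v : Fin m → (Fin m → ℤ), (∀ i, v i ∈ S) → |(Matrix.of v).det| ≤ |(Matrix.of b).det|) ∧
        ∀ (x : Fin m → ℤ) (J : Finset (Fin m → ℤ)), J ⊆ S →
          (∀ v ∈ J, v - x ∈ Submodule.span ℤ (Set.range b)) → J.card ≤ 27 ^ 4 * 5 * m ^ 2)) := by
  have h1 : ∀ S : Finset (Fin m → ℤ), DeltaModular Δ m S → S.card ≤ 27 ^ 4 * 5 * m ^ 2 * Δ := by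
    intro S hS
    have h := (Lib_MP_f63283_ins.sublattice_bound hm S hS ⊤ fun v _ => AddSubgroup.mem_top v).2
    rwa [AddSubgroup.index_top, mul_one] at h
  refine ⟨?_, ?_⟩
  · have hne : Set.Nonempty {n : ℕ | ∃ S : Finset (Fin m → ℤ), DeltaModular Δ m S ∧ S.card = n} :=
      ⟨_, _, Lib_MP_f63283_ins.unit_modular hΔ, rfl⟩
    have hbd : BddAbove {n : ℕ | ∃ S : Finset (Fin m → ℤ), DeltaModular Δ m S ∧ S.card = n} := by
      refine ⟨27 ^ 4 * 5 * m ^ 2 * Δ, ?_⟩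
      rintro n ⟨S, hS, rfl⟩
      exact h1 S hS
    have hmem := Nat.sSup_mem hne hbd
    refine ⟨_, ⟨hmem, fun n hn => le_csSup hbd hn⟩, ?_⟩
    obtain ⟨S, hS, hcard⟩ := hmem
    rw [← hcard]
    exact h1 S hS
  · intro S hS
    refine ⟨fun Λ hΛ => Lib_MP_f63283_ins.sublattice_bound hm S hS Λ hΛ, ?_⟩
    obtain ⟨b, hbS, hb0, hmax⟩ := Lib_MP_f63283_ins.exists_max S hS.1
    refine ⟨b, hbS, hb0, hmax, fun x J hJS hJ => ?_⟩
    have h := Lib_MP_f63283_ins.coset_bound_set S b hbS hb0 hmax x J hJS hJ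
    have h2 := Lib_MP_f63283_ins.F_three_succ_le m hm
    calc J.card ≤ 27 ^ 4 * (Lib_MP_f63283_co.F m 3 + 1) := h.le
      _ ≤ 27 ^ 4 * (5 * m ^ 2) := Nat.mul_le_mul_left _ h2
      _ = 27 ^ 4 * 5 * m ^ 2 := by ring

end Pool.Agent.Results.MP_f63283_co.ColumnNumberSets
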